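import Pool.Agent.Q289.AC.Fin

set_option autoImplicit false

/-!
# Project AC (helper289): the limit is almost surely infinite with bounded degrees
-/

open MeasureTheory ProbabilityTheory Filter Topology

namespace Pool.Agent.Q275.AC

open Q289.AC

lemma card_bs {V : Type} [Finite V] (Y : SimpleGraph V) (hc : ∀ a b, Y.Reachable a b) (r : ℕ)
    (hV : r + 1 ≤ Nat.card V) (v : V) : r + 1 ≤ Nat.card (bs Y v r) := by
  by_cases h : ∃ u, r ≤ Y.dist v u
  · obtain ⟨u, hu⟩ := h
    obtain ⟨p, hp⟩ := (hc v u).exists_walk_length_eq_dist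
    have hpath : p.IsPath := SimpleGraph.Walk.isPath_of_length_eq_dist p hp
    have hinj := hpath.getVert_injOn
    have h1 : Nat.card (Fin (r + 1)) ≤ Nat.card (bs Y v r) := by
      refine Nat.card_le_card_of_injective
        (fun i : Fin (r + 1) => (⟨p.getVert i, p.take i, ?_⟩ : bs Y v r)) ?_
      · rw [SimpleGraph.Walk.take_length]
        have := i.2
        omega
      · intro i j hij
        have h2 : p.getVert i = p.getVert j := congrArg Subtype.val hij
        have h3 := hinj (x₁ := (i : ℕ)) (x₂ := (j : ℕ))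
          (by have := i.2; simp only [Set.mem_ofPred_eq]; omega)
          (by have := j.2; simp only [Set.mem_ofPred_eq]; omega) h2
        exact Fin.ext h3
    rwa [Nat.card_fin] at h1
  · push Not at h
    have h1 : bs Y v r = Set.univ := by
      ext u
      simp only [Set.mem_univ, iff_true]
      obtain ⟨p, hp⟩ := (hc v u).exists_walk_length_eq_dist
      exact ⟨p, by rw [hp]; exact (h u).le⟩
    rw [h1, Nat.card_coe_set_eq, Set.ncard_univ]
    exact hV

section group
variable {Γ : Type} [Group Γ] {S : Finset Γ}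

lemma deg_bound (hS : Gen S) {V : Type} (Y : SimpleGraph V) (g : V → Γ) (hg : Function.Injective g)
    (hY : ∀ a b, Y.Adj a b → (cay S).Adj (g a) (g b)) (x : V) : (Y.neighborSet x).ncard ≤ 2 * S.card := by
  have h1 : (Y.neighborSet x).ncard ≤ (S : Set Γ).ncard := by
    refine Set.ncard_le_ncard_of_injOn (fun b => (g x)⁻¹ * g b) (fun b hb => ?_) (fun b _ c _ hbc => ?_)
      S.finite_toSet
    · exact ((cay_adj hS).1 (hY x b hb)).2
    · exact hg (mul_left_cancel hbc)
  rw [Set.ncard_coe_finset] at h1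
  omega

lemma reach_Bn (hS : Gen S) (n : ℕ) (h1 : (1 : Γ) ∈ Bn S n) : ∀ k : ℕ, ∀ (g : Γ) (hg : g ∈ Bn S n), len S g = k →
    ((cay S).induce (Bn S n)).Reachable ⟨1, h1⟩ ⟨g, hg⟩ := by
  intro k
  induction k with
  | zero =>
    intro g hg h
    have : g = 1 := (len_eq_zero hS).1 h
    subst this
    exact SimpleGraph.Reachable.refl _
  | succ k ih =>
    intro g hg h
    obtain ⟨x, y, hxy, hx, hy⟩ := exists_split hS g k (by omega)
    have hy1 : len S y = 1 := by omega
    have hgn : len S g ≤ n := (mem_Bn hS n g).1 hg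
    have hxn : x ∈ Bn S n := (mem_Bn hS n x).2 (by omega)
    have hadj : (cay S).Adj x g := by
      have h2 : (cay S).Adj 1 y := SimpleGraph.dist_eq_one_iff_adj.1 hy1
      have h3 := (adj_mul_left (S := S) x 1 y).2 h2
      rwa [mul_one, ← hxy] at h3
    have h4 : ((cay S).induce (Bn S n)).Adj ⟨x, hxn⟩ ⟨g, hg⟩ := hadj
    exact (ih x hxn hx).trans h4.reachable

lemma conn_Bn (hS : Gen S) (n : ℕ) (a b : Bn S n) : ((cay S).induce (Bn S n)).Reachable a b := by
  have h1 : (1 : Γ) ∈ Bn S n := (mem_Bn hS n 1).2 (by rw [len_one]; omega)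
  exact (reach_Bn hS n h1 _ a.1 a.2 rfl).symm.trans (reach_Bn hS n h1 _ b.1 b.2 rfl)

lemma card_Bn (hS : Gen S) [Infinite Γ] (r : ℕ) : ∀ᶠ n : ℕ in atTop, r + 1 ≤ Nat.card (Bn S n) := by
  obtain ⟨t, ht⟩ := Infinite.exists_subset_card_eq Γ (r + 1)
  filter_upwards [eventually_ge_atTop (t.sup (len S))] with n hn
  have hsub : (t : Set Γ) ⊆ Bn S n := fun g hg =>
    (mem_Bn hS n g).2 ((Finset.le_sup (f := len S) hg).trans hn)
  have h1 := Set.ncard_le_ncard hsub (finite_Bn hS n)
  rw [Set.ncard_coe_finset, ht] at h1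
  rwa [Nat.card_coe_set_eq]

end group

/-- **infinite with bounded degrees** -/
theorem degree (ht : S_Transfer) : S_Degree := by
  intro Γ _ S hS hinf Ω _ P _ X ρ hlim
  have hE : ∀ r : ℕ, ∀ᵐ ω ∂P, ∃ (N : ℕ) (F : SimpleGraph (Fin N)) (f : Fin N),
      (r + 1 ≤ N ∧ ∀ x, (F.neighborSet x).ncard ≤ 2 * S.card) ∧ BallIso (X ω) (ρ ω) r F f := by
    intro r
    obtain ⟨hm, hp⟩ := ht Γ S hS hinf Ω P X ρ hlim r
      (fun N F _ => r + 1 ≤ N ∧ ∀ x, (F.neighborSet x).ncard ≤ 2 * S.card) 0 (by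
        filter_upwards [card_Bn hS r] with n hn
        have hfin : Finite (Bn S n) := (finite_Bn hS n).to_subtype
        have hall : ∀ v : Bn S n, ∃ (N : ℕ) (F : SimpleGraph (Fin N)) (f : Fin N),
            (r + 1 ≤ N ∧ ∀ x, (F.neighborSet x).ncard ≤ 2 * S.card) ∧
            BallIso ((cay S).induce (Bn S n)) v r F f := by
          intro v
          obtain ⟨N, F, f, φ, hφ⟩ := exists_ballIso ((cay S).induce (Bn S n)) v r
          refine ⟨N, F, f, ⟨?_, ?_⟩, φ, hφ⟩
          · have h1 := card_bs ((cay S).induce (Bn S n)) (conn_Bn hS n) r hn v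
            have h2 : Nat.card (bs ((cay S).induce (Bn S n)) v r) = Nat.card (Fin N) :=
              Nat.card_congr φ.toEquiv
            rw [Nat.card_fin] at h2
            omega
          · refine deg_bound hS F (fun x => ((φ.symm x).1.1 : Γ)) ?_ ?_
            · intro a b hab
              exact φ.symm.injective (Subtype.ext (Subtype.ext hab))
            · intro a b hab
              have h1 := (φ.symm.map_adj_iff).2 hab
              exact h1
        rw [sub_zero, one_mul]
        have hle : Nat.card (Bn S n) ≤ Nat.card {v : Bn S n // ∃ (N : ℕ) (F : SimpleGraph (Fin N)) (f : Fin N),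
            (r + 1 ≤ N ∧ ∀ x, (F.neighborSet x).ncard ≤ 2 * S.card) ∧
            BallIso ((cay S).induce (Bn S n)) v r F f} :=
          Nat.card_le_card_of_injective (fun v => ⟨v, hall v⟩) (fun a b hab => congrArg Subtype.val hab)
        exact_mod_cast hle)
    rw [sub_zero] at hp
    set A := {ω | ∃ (N : ℕ) (F : SimpleGraph (Fin N)) (f : Fin N),
      (r + 1 ≤ N ∧ ∀ x, (F.neighborSet x).ncard ≤ 2 * S.card) ∧ BallIso (X ω) (ρ ω) r F f} with hA
    have h5 : P.real Aᶜ = 1 - P.real A := probReal_compl_eq_one_sub hm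
    have h6 : P.real Aᶜ = 0 := le_antisymm (by linarith) measureReal_nonneg
    have h7 : P Aᶜ = 0 := by
      rwa [measureReal_def, ENNReal.toReal_eq_zero_iff, or_iff_left (measure_ne_top _ _)] at h6
    exact h7
  filter_upwards [ae_all_iff.2 hE] with ω hω
  constructor
  · intro hfin
    obtain ⟨N, F, f, ⟨hN, -⟩, φ, -⟩ := hω ({v | (X ω).Reachable (ρ ω) v}.ncard)
    have hsub : bs (X ω) (ρ ω) ({v | (X ω).Reachable (ρ ω) v}.ncard) ⊆ {v | (X ω).Reachable (ρ ω) v} := by
      rintro u ⟨p, _⟩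
      exact ⟨p⟩
    have h1 := Set.ncard_le_ncard hsub hfin
    have h2 : Nat.card (bs (X ω) (ρ ω) ({v | (X ω).Reachable (ρ ω) v}.ncard)) = Nat.card (Fin N) :=
      Nat.card_congr φ.toEquiv
    rw [Nat.card_fin, Nat.card_coe_set_eq] at h2
    omega
  · rintro v ⟨p⟩
    obtain ⟨N, F, f, ⟨-, hd⟩, φ, -⟩ := hω (p.length + 1)
    have hv : v ∈ bs (X ω) (ρ ω) (p.length + 1) := ⟨p, Nat.le_succ _⟩
    have hsub : (X ω).neighborSet v ⊆
        (fun x => ((φ.symm x).1 : ℕ)) '' (F.neighborSet (φ ⟨v, hv⟩)) := by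
      intro b hb
      have hadj : (X ω).Adj v b := hb
      have hb' : b ∈ bs (X ω) (ρ ω) (p.length + 1) :=
        ⟨p.concat hadj, by rw [SimpleGraph.Walk.length_concat]⟩
      refine ⟨φ ⟨b, hb'⟩, ?_, ?_⟩
      · have h1 : ((X ω).induce (bs (X ω) (ρ ω) (p.length + 1))).Adj ⟨v, hv⟩ ⟨b, hb'⟩ := hadj
        exact (φ.map_adj_iff).2 h1
      · show ((φ.symm (φ ⟨b, hb'⟩)).1 : ℕ) = b
        rw [φ.symm_apply_apply]
    have hfin : (F.neighborSet (φ ⟨v, hv⟩)).Finite := Set.toFinite _
    refine ⟨(hfin.image _).subset hsub, ?_⟩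
    exact (Set.ncard_le_ncard hsub (hfin.image _)).trans ((Set.ncard_image_le hfin).trans (hd _))

end Pool.Agent.Q275.AC
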