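import Pool.Agent.Q289.AC.Stm

set_option autoImplicit false

/-!
# Project AC (helper289): percolation on a graph with many cut sets
-/

open MeasureTheory ProbabilityTheory Filter Topology Measure unitInterval

namespace Pool.Agent.Q275.AC

open Q289.AC

section blocks

variable {E : Type} {ν : E → Measure Prop} [∀ e, IsProbabilityMeasure (ν e)]

lemma blocks {J : Type} [DecidableEq J] (s : Finset J) (T : J → Finset E)
    (hT : ∀ i ∈ s, ∀ j ∈ s, i ≠ j → Disjoint (T i) (T j)) :
    infinitePi ν {ω | ∀ j ∈ s, ∃ e ∈ T j, ω e} = ∏ j ∈ s, infinitePi ν {ω | ∃ e ∈ T j, ω e} := by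
  classical
  induction s using Finset.induction_on with
  | empty => simp
  | insert j0 s hj0 ih =>
    rw [Finset.prod_insert hj0, ← ih fun i hi j hj hij =>
      hT i (Finset.mem_insert_of_mem hi) j (Finset.mem_insert_of_mem hj) hij]
    have hdisj : Disjoint (T j0) (s.biUnion T) := by
      rw [Finset.disjoint_biUnion_right]
      intro j hj
      refine hT j0 (Finset.mem_insert_self _ _) j (Finset.mem_insert_of_mem hj) ?_
      rintro rfl
      exact hj0 hj
    have hind : iIndepFun (fun (e : E) (ω : E → Prop) => ω e) (infinitePi ν) :=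
      iIndepFun_infinitePi (X := fun _ p => p) fun _ => measurable_id
    have h2 := hind.indepFun_finset (T j0) (s.biUnion T) hdisj (fun e => measurable_pi_apply e)
    have h3 := h2.measure_inter_preimage_eq_mul {g | ∃ e, g e}
      {g | ∀ j ∈ s, ∃ (e : E) (he : e ∈ s.biUnion T), e ∈ T j ∧ g ⟨e, he⟩}
      (Set.toFinite _).measurableSet (Set.toFinite _).measurableSet
    have e1 : (fun (a : E → Prop) (i : T j0) => a i) ⁻¹' {g | ∃ e, g e} = {ω | ∃ e ∈ T j0, ω e} := by
      ext ω
      constructor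
      · rintro ⟨e, he⟩
        exact ⟨e.1, e.2, he⟩
      · rintro ⟨e, he, h⟩
        exact ⟨⟨e, he⟩, h⟩
    have e2 : (fun (a : E → Prop) (i : s.biUnion T) => a i) ⁻¹'
        {g | ∀ j ∈ s, ∃ (e : E) (he : e ∈ s.biUnion T), e ∈ T j ∧ g ⟨e, he⟩} =
        {ω | ∀ j ∈ s, ∃ e ∈ T j, ω e} := by
      ext ω
      constructor
      · intro h j hj
        obtain ⟨e, _, h1, h2⟩ := h j hj
        exact ⟨e, h1, h2⟩
      · intro h j hj
        obtain ⟨e, h1, h2⟩ := h j hj
        exact ⟨e, Finset.mem_biUnion.2 ⟨j, hj, h1⟩, h1, h2⟩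
    rw [e1, e2] at h3
    rw [← h3]
    congr 1
    ext ω
    constructor
    · intro h
      exact ⟨h j0 (Finset.mem_insert_self _ _), fun j hj => h j (Finset.mem_insert_of_mem hj)⟩
    · rintro ⟨h4, h5⟩ j hj
      rcases Finset.mem_insert.1 hj with rfl | hj
      · exact h4
      · exact h5 j hj

end blocks

/-- the marginals -/
noncomputable abbrev nu {E : Type} (u : Set E) (p : I) (i : E) : Measure Prop :=
  toNNReal p • dirac (i ∈ u) + toNNReal (σ p) • dirac False

lemma prob_block {E : Type} (u : Set E) (p : I) (T : Finset E) (hT : ∀ e ∈ T, e ∈ u) :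
    infinitePi (nu u p) {ω | ∃ e ∈ T, ω e} = 1 - (toNNReal (σ p) : ENNReal) ^ T.card := by
  have e1 : {ω : E → Prop | ∃ e ∈ T, ω e} = (Set.pi (T : Set E) fun _ => {False})ᶜ := by
    ext ω
    simp [Set.mem_pi]
  have h1 : infinitePi (nu u p) (Set.pi (T : Set E) fun _ => {False}) =
      (toNNReal (σ p) : ENNReal) ^ T.card := by
    rw [infinitePi_pi _ (fun _ _ => MeasurableSet.of_discrete), ← Finset.prod_const]
    refine Finset.prod_congr rfl fun e he => ?_
    have : e ∈ u := hT e he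
    simp [nu, this]
  rw [e1, prob_compl_eq_one_sub (MeasurableSet.pi T.countable_toSet fun _ _ => MeasurableSet.of_discrete), h1]

section graph

variable {X : SimpleGraph ℕ} {ρ : ℕ}

lemma reach_of_bs {r v : ℕ} (h : v ∈ bs X ρ r) : X.Reachable ρ v := by
  obtain ⟨p, _⟩ := h
  exact ⟨p⟩

theorem bs_finite (hfin : ∀ v, X.Reachable ρ v → (X.neighborSet v).Finite) (r : ℕ) :
    (bs X ρ r).Finite := by
  induction r with
  | zero =>
    refine (Set.finite_singleton ρ).subset ?_
    rintro u ⟨p, hp⟩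
    exact (SimpleGraph.Walk.eq_of_length_eq_zero (Nat.le_zero.1 hp)).symm
  | succ r ih =>
    have h1 : (⋃ v ∈ bs X ρ r, X.neighborSet v).Finite :=
      ih.biUnion fun v hv => hfin v (reach_of_bs hv)
    refine (ih.union h1).subset ?_
    rintro u ⟨p, hp⟩
    by_cases h : p.length ≤ r
    · exact Or.inl ⟨p, h⟩
    · have hl : p.length = r + 1 := by omega
      right
      refine Set.mem_biUnion (x := p.getVert r) ⟨p.take r, ?_⟩ ?_
      · rw [SimpleGraph.Walk.take_length]; omega
      · have h2 := p.adj_getVert_succ (i := r) (by omega)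
        rw [← hl, SimpleGraph.Walk.getVert_length] at h2
        exact h2

lemma cluster {A : Set ℕ} {η : Set (Sym2 ℕ)} (h1 : η ⊆ X.edgeSet) (h2 : ∀ a ∈ A, ∀ b, s(a, b) ∉ η) {v u : ℕ}
    (hv : Av X A ρ v) (hu : (SimpleGraph.fromEdgeSet η).Reachable v u) : Av X A ρ u := by
  obtain ⟨p⟩ := hu
  induction p with
  | nil => exact hv
  | cons hadj p ih =>
    rename_i a b c
    rw [SimpleGraph.fromEdgeSet_adj] at hadj
    refine ih (hv.tail ((SimpleGraph.mem_edgeSet X).1 (h1 hadj.1)) fun hb => ?_)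
    refine h2 _ hb a ?_
    rw [Sym2.eq_swap]
    exact hadj.1

open Classical in
/-- the neighbours -/
noncomputable def nb (X : SimpleGraph ℕ) (a : ℕ) : Finset ℕ :=
  if h : (X.neighborSet a).Finite then h.toFinset else ∅

lemma mem_nb {a b : ℕ} (h : (X.neighborSet a).Finite) : b ∈ nb X a ↔ X.Adj a b := by
  unfold nb
  rw [dif_pos h]
  simp

lemma adj_of_nb {a b : ℕ} (h : b ∈ nb X a) : X.Adj a b := by
  unfold nb at h
  split_ifs at h with h1
  · simpa using h
  · simp at h

lemma nb_card {a D : ℕ} (h : (X.neighborSet a).Finite) (hD : (X.neighborSet a).ncard ≤ D) : (nb X a).card ≤ D := by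
  unfold nb
  rw [dif_pos h, ← Set.ncard_eq_toFinset_card _ h]
  exact hD

/-- the incident edges -/
noncomputable def TE (X : SimpleGraph ℕ) (B : Finset ℕ) : Finset (Sym2 ℕ) :=
  B.biUnion fun a => (nb X a).image fun b => s(a, b)

lemma mem_TE {B : Finset ℕ} {e : Sym2 ℕ} : e ∈ TE X B ↔ ∃ a ∈ B, ∃ b ∈ nb X a, s(a, b) = e := by
  simp [TE]

lemma TE_edge {B : Finset ℕ} {e : Sym2 ℕ} (h : e ∈ TE X B) : e ∈ X.edgeSet := by
  obtain ⟨a, _, b, hb, rfl⟩ := mem_TE.1 h
  exact adj_of_nb hb

lemma TE_card {B : Finset ℕ} {c D : ℕ} (hB : B.card ≤ c) (h : ∀ a ∈ B, (nb X a).card ≤ D) :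
    (TE X B).card ≤ c * D := by
  refine (Finset.card_biUnion_le_card_mul _ _ D fun a ha => Finset.card_image_le.trans (h a ha)).trans ?_
  exact Nat.mul_le_mul_right _ hB

lemma TE_disj {B C : Finset ℕ} (h : ∀ a ∈ B, ∀ b ∈ C, a ≠ b ∧ ¬ X.Adj a b) : Disjoint (TE X B) (TE X C) := by
  rw [Finset.disjoint_left]
  intro e he he'
  obtain ⟨a, ha, b, hb, hab⟩ := mem_TE.1 he
  obtain ⟨a', ha', b', hb', hab'⟩ := mem_TE.1 he'
  rw [← hab', Sym2.eq_iff] at hab
  have h1 := adj_of_nb hb
  have h2 := h a ha a' ha'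
  rcases hab with ⟨h3, _⟩ | ⟨_, h4⟩
  · exact h2.1 h3
  · rw [h4] at h1
    exact h2.2 h1

/-- the basic estimate -/
theorem est (hinfdeg : ∀ v, X.Reachable ρ v → (X.neighborSet v).Finite) {Δ c : ℕ}
    (hdeg : ∀ v, X.Reachable ρ v → (X.neighborSet v).ncard ≤ Δ) {m r : ℕ} (hC : Cuts X ρ r m c) {v : ℕ}
    (w : X.Walk ρ v) (p : I) {k : ℕ} (hk : k + w.support.length ≤ m) :
    setBernoulli X.edgeSet p {η | {u | (SimpleGraph.fromEdgeSet η).Reachable v u}.Infinite} ≤
      (1 - (toNNReal (σ p) : ENNReal) ^ (c * Δ)) ^ k := by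
  classical
  obtain ⟨A, hA1, hA2, hA3, hA4⟩ := hC
  set B : Fin m → Finset ℕ := fun j => (hA1 j).1.toFinset with hB
  have hBA : ∀ j a, a ∈ B j ↔ a ∈ A j := fun j a => by simp [hB]
  set good : Finset (Fin m) := Finset.univ.filter fun j => Av X (A j) ρ v with hgood
  -- the number of good indices
  have hbad : (Finset.univ.filter fun j => ¬ Av X (A j) ρ v).card ≤ w.support.length := by
    have hz : ∀ j, ¬ Av X (A j) ρ v → ∃ z ∈ w.support, z ∈ A j := by
      intro j hj
      by_contra hcon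
      push Not at hcon
      exact hj (av_of_walk w hcon)
    choose! z hz1 hz2 using hz
    have h1 : (Finset.univ.filter fun j => ¬ Av X (A j) ρ v).card ≤ w.support.toFinset.card := by
      refine Finset.card_le_card_of_injOn z (fun j hj => ?_) fun i hi j hj hij => ?_
      · rw [Finset.mem_coe, Finset.mem_filter] at hj
        rw [Finset.mem_coe, List.mem_toFinset]
        exact hz1 j hj.2
      · rw [Finset.mem_coe, Finset.mem_filter] at hi hj
        by_contra hne
        exact (hA3 i j hne _ (hz2 i hi.2) _ (hz2 j hj.2)).1 hij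
    exact h1.trans (List.toFinset_card_le _)
  have hgc : k ≤ good.card := by
    have h1 := Finset.card_filter_add_card_filter_not (s := (Finset.univ : Finset (Fin m)))
      (p := fun j => Av X (A j) ρ v)
    rw [Finset.card_univ, Fintype.card_fin] at h1
    have h2 : good.card = (Finset.univ.filter fun j => Av X (A j) ρ v).card := rfl
    omega
  have hq1 : (toNNReal (σ p) : ENNReal) ≤ 1 := by
    exact_mod_cast (σ p).2.2
  -- the inclusion
  have hincl : {η : Set (Sym2 ℕ) | {u | (SimpleGraph.fromEdgeSet η).Reachable v u}.Infinite} ⊆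
      {η | ¬ η ⊆ X.edgeSet} ∪ {η | ∀ j ∈ good, ∃ e ∈ TE X (B j), e ∈ η} := by
    intro η hη
    by_contra hcon
    rw [Set.mem_union, not_or] at hcon
    obtain ⟨h1, h2⟩ := hcon
    simp only [Set.mem_ofPred_eq, not_not] at h1
    simp only [Set.mem_ofPred_eq] at h2
    push Not at h2
    obtain ⟨j, hj, hj2⟩ := h2
    have hav : Av X (A j) ρ v := (Finset.mem_filter.1 hj).2
    apply hη
    refine (bs_finite hinfdeg r).subset fun u hu => hA4 j u ?_
    refine cluster h1 (fun a ha b hab => ?_) hav hu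
    have hadj : X.Adj a b := h1 hab
    refine hj2 _ (mem_TE.2 ⟨a, (hBA j a).2 ha, b, ?_, rfl⟩) hab
    exact (mem_nb (hinfdeg a (reach_of_bs (hA2 j ha)))).2 hadj
  refine (measure_mono hincl).trans ((measure_union_le _ _).trans ?_)
  have h0 : setBernoulli X.edgeSet p {η | ¬ η ⊆ X.edgeSet} = 0 := setBernoulli_ae_subset
  rw [h0, zero_add, setBernoulli_apply']
  have e1 : (fun q : Sym2 ℕ → Prop => {i | q i}) ⁻¹' {η | ∀ j ∈ good, ∃ e ∈ TE X (B j), e ∈ η} =
      {ω | ∀ j ∈ good, ∃ e ∈ TE X (B j), ω e} := rfl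
  rw [e1]
  have h2 := blocks (ν := nu X.edgeSet p) good (fun j => TE X (B j)) (fun i _ j _ hij =>
    TE_disj fun a ha b hb => hA3 i j hij a ((hBA i a).1 ha) b ((hBA j b).1 hb))
  refine (le_of_eq h2).trans ?_
  have h3 : ∀ j ∈ good, infinitePi (nu X.edgeSet p) {ω | ∃ e ∈ TE X (B j), ω e} ≤
      1 - (toNNReal (σ p) : ENNReal) ^ (c * Δ) := by
    intro j _
    rw [prob_block _ _ _ fun e he => TE_edge he]
    refine tsub_le_tsub_left ?_ _
    refine pow_le_pow_right_of_le_one' hq1 (TE_card ?_ fun a ha => ?_)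
    · have := (hA1 j).2
      rwa [Set.ncard_eq_toFinset_card _ (hA1 j).1] at this
    · have hr := reach_of_bs (hA2 j ((hBA j a).1 ha))
      exact nb_card (hinfdeg a hr) (hdeg a hr)
  refine (Finset.prod_le_prod' h3).trans ?_
  rw [Finset.prod_const]
  exact pow_le_pow_right_of_le_one' tsub_le_self hgc

end graph

/-- **percolation on a graph with many cut sets** -/
theorem perc : S_Perc := by
  intro X ρ Δ c hinf hdeg hC
  have hset : {p : ℝ | ∃ hp : p ∈ unitInterval, 0 < setBernoulli X.edgeSet ⟨p, hp⟩ (PercEv X ρ)} = {1} := by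
    ext p
    rw [Set.mem_singleton_iff]
    constructor
    · rintro ⟨hp, hpos⟩
      by_contra hne
      have hlt : p < 1 := lt_of_le_of_ne hp.2 hne
      have hq : (toNNReal (σ (⟨p, hp⟩ : I)) : ENNReal) ≠ 0 := by
        intro h
        have h1 : (toNNReal (σ (⟨p, hp⟩ : I)) : ℝ) = 0 := by
          have := ENNReal.coe_eq_zero.1 h
          rw [this]; rfl
        rw [coe_toNNReal, coe_symm_eq] at h1
        have h2 : 1 - p = 0 := h1
        linarith
      have hzero : setBernoulli X.edgeSet ⟨p, hp⟩ (PercEv X ρ) = 0 := by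
        have hsub : PercEv X ρ ⊆ ⋃ v : ℕ, ⋃ _ : X.Reachable ρ v,
            {η | {u | (SimpleGraph.fromEdgeSet η).Reachable v u}.Infinite} := by
          rintro η ⟨v, hv, h⟩
          exact Set.mem_iUnion.2 ⟨v, Set.mem_iUnion.2 ⟨hv, h⟩⟩
        refine measure_mono_null hsub ?_
        refine measure_iUnion_null fun v => measure_iUnion_null fun hv => ?_
        obtain ⟨w⟩ := hv
        have hb : ∀ k : ℕ, setBernoulli X.edgeSet ⟨p, hp⟩
            {η | {u | (SimpleGraph.fromEdgeSet η).Reachable v u}.Infinite} ≤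
            (1 - (toNNReal (σ (⟨p, hp⟩ : I)) : ENNReal) ^ (c * Δ)) ^ k := by
          intro k
          obtain ⟨r, hr⟩ := hC (k + w.support.length)
          exact est (fun v hv => (hdeg v hv).1) (fun v hv => (hdeg v hv).2) hr w _ le_rfl
        have hlt1 : 1 - (toNNReal (σ (⟨p, hp⟩ : I)) : ENNReal) ^ (c * Δ) < 1 :=
          ENNReal.sub_lt_self ENNReal.one_ne_top one_ne_zero (pow_ne_zero _ hq)
        have ht := ENNReal.tendsto_pow_atTop_nhds_zero_of_lt_one hlt1
        exact le_antisymm (ge_of_tendsto' ht hb) bot_le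
      rw [hzero] at hpos
      exact lt_irrefl _ hpos
    · rintro rfl
      refine ⟨⟨zero_le_one, le_rfl⟩, ?_⟩
      have e : (⟨1, ⟨zero_le_one, le_rfl⟩⟩ : I) = 1 := rfl
      rw [e, setBernoulli_one]
      have hmem : X.edgeSet ∈ PercEv X ρ := by
        refine ⟨ρ, SimpleGraph.Reachable.refl _, ?_⟩
        rw [SimpleGraph.fromEdgeSet_edgeSet]
        exact hinf
      rw [dirac_apply_of_mem hmem]
      exact one_pos
  unfold pc
  rw [hset]
  exact csInf_singleton 1

end Pool.Agent.Q275.AC
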